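import Pool.Agent.Run7.h677.PS.Stm

set_option autoImplicit false

namespace Pool.Agent.Run7.h677.PS
open Finset

/-- A point of the hull of finitely many points is a convex combination of them. -/
theorem hom_comb {d m : ℕ} (z : Fin m → E d) {p : E d}
    (hp : p ∈ convexHull ℝ (z '' (Set.univ : Set (Fin m)))) :
    ∃ c : Fin m → ℝ, (∀ j, 0 ≤ c j) ∧ ∑ j, c j = 1 ∧ ∑ j, c j • z j = p := by
  classical
  have hsub : convexHull ℝ (z '' (Set.univ : Set (Fin m))) ⊆
      {x | ∃ c : Fin m → ℝ, (∀ j, 0 ≤ c j) ∧ ∑ j, c j = 1 ∧ ∑ j, c j • z j = x} := by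
    apply convexHull_min
    · rintro _ ⟨j, -, rfl⟩
      refine ⟨Pi.single j 1, fun i => ?_, ?_, ?_⟩
      · by_cases h : i = j
        · subst h; simp
        · simp [h]
      · simp
      · rw [Finset.sum_eq_single j]
        · simp
        · intro i _ hi
          simp [hi]
        · simp
    · rintro _ ⟨c, hc0, hc1, rfl⟩ _ ⟨c', hc0', hc1', rfl⟩ a b ha hb hab
      refine ⟨fun j => a * c j + b * c' j, fun j => ?_, ?_, ?_⟩
      · have := hc0 j
        have := hc0' j
        positivity
      · rw [Finset.sum_add_distrib, ← Finset.mul_sum, ← Finset.mul_sum, hc1, hc1']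
        linarith
      · simp only [add_smul, mul_smul, Finset.sum_add_distrib, ← Finset.smul_sum]
  exact hsub hp

/-- The pivot lemma. -/
theorem hom_pivot {d : ℕ} (z : Fin (d + 1) → E d) (w : E d) {p : E d}
    (hp : p ∈ convexHull ℝ (z '' (Set.univ : Set (Fin (d + 1))))) :
    ∃ l : Fin (d + 1), p ∈ convexHull ℝ (insert w (z '' {j | j ≠ l})) := by
  classical
  obtain ⟨c, hc0, hc1, hcp⟩ := hom_comb z hp
  -- an affine dependence
  let u : Option (Fin (d + 1)) → E d := fun o => o.elim w z
  have hdep : ∃ μ : Option (Fin (d + 1)) → ℝ, ∑ o, μ o = 0 ∧ ∑ o, μ o • u o = 0 ∧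
      (∃ o, μ o ≠ 0) := by
    have hna : ¬ AffineIndependent ℝ u := by
      intro h
      have h1 := h.card_le_finrank_succ
      have h2 : Module.finrank ℝ (vectorSpan ℝ (Set.range u)) ≤ d := by
        calc Module.finrank ℝ (vectorSpan ℝ (Set.range u)) ≤ Module.finrank ℝ (E d) :=
              Submodule.finrank_le _
          _ = d := by simp
      simp only [Fintype.card_option, Fintype.card_fin] at h1
      omega
    rw [affineIndependent_iff] at hna
    push Not at hna
    obtain ⟨s, μ, h0, h1, e, he, hne⟩ := hna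
    refine ⟨fun o => if o ∈ s then μ o else 0, ?_, ?_, e, ?_⟩
    · simpa [Finset.sum_ite_mem] using h0
    · simpa [ite_smul, Finset.sum_ite_mem] using h1
    · simp [he, hne]
  obtain ⟨μ, hμ0, hμ1, hμne, hμpos⟩ : ∃ μ : Option (Fin (d + 1)) → ℝ, ∑ o, μ o = 0 ∧
      ∑ o, μ o • u o = 0 ∧ (∃ o, μ o ≠ 0) ∧ 0 ≤ μ none := by
    obtain ⟨μ, h0, h1, h2⟩ := hdep
    rcases le_total 0 (μ none) with h | h
    · exact ⟨μ, h0, h1, h2, h⟩
    · refine ⟨fun o => - μ o, ?_, ?_, ?_, ?_⟩
      · rw [Finset.sum_neg_distrib, h0, neg_zero]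
      · simp only [neg_smul]
        rw [Finset.sum_neg_distrib, h1, neg_zero]
      · obtain ⟨o, ho⟩ := h2
        exact ⟨o, neg_ne_zero.2 ho⟩
      · linarith
  -- some coefficient is negative
  have hneg : ({j : Fin (d + 1) | μ (some j) < 0} : Finset (Fin (d + 1))).Nonempty := by
    by_contra hcon
    rw [Finset.not_nonempty_iff_eq_empty] at hcon
    have hall : ∀ o ∈ (univ : Finset (Option (Fin (d + 1)))), 0 ≤ μ o := by
      intro o _
      cases o with
      | none => exact hμpos
      | some j =>
        by_contra hlt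
        have : j ∈ ({j : Fin (d + 1) | μ (some j) < 0} : Finset (Fin (d + 1))) := by
          simpa using hlt
        rw [hcon] at this
        simp at this
    have hz := (Finset.sum_eq_zero_iff_of_nonneg hall).1 hμ0
    obtain ⟨o, ho⟩ := hμne
    exact ho (hz o (Finset.mem_univ _))
  obtain ⟨l, hl, hmin⟩ := Finset.exists_min_image _ (fun j => c j / (- μ (some j))) hneg
  simp only [Finset.mem_filter, Finset.mem_univ, true_and] at hl hmin
  set t := c l / (- μ (some l)) with ht
  have htpos : 0 ≤ t := div_nonneg (hc0 l) (by linarith)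
  have hcoef : ∀ j, 0 ≤ c j + t * μ (some j) := by
    intro j
    rcases le_or_gt 0 (μ (some j)) with h | h
    · have := hc0 j
      positivity
    · have h1 := hmin j h
      rw [le_div_iff₀ (by linarith)] at h1
      linarith
  have hl0 : c l + t * μ (some l) = 0 := by
    have : μ (some l) ≠ 0 := hl.ne
    rw [ht]
    field_simp
    ring
  let ν : Option (Fin (d + 1)) → ℝ := fun o => o.elim (t * μ none) (fun j => c j + t * μ (some j))
  have hν1 : ∑ o, ν o = 1 := by
    rw [Fintype.sum_option] at hμ0 ⊢
    simp only [ν, Option.elim]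
    rw [Finset.sum_add_distrib, ← Finset.mul_sum, hc1]
    have : t * μ none + t * ∑ j, μ (some j) = 0 := by
      rw [← mul_add, hμ0, mul_zero]
    linarith
  have hνp : ∑ o, ν o • u o = p := by
    rw [Fintype.sum_option] at hμ1 ⊢
    simp only [ν, u, Option.elim] at hμ1 ⊢
    simp only [add_smul, mul_smul]
    rw [Finset.sum_add_distrib, ← Finset.smul_sum, hcp]
    have : t • μ none • w + t • ∑ j, μ (some j) • z j = 0 := by
      rw [← smul_add, hμ1, smul_zero]
    rw [← add_assoc, add_comm (t • μ none • w) p, add_assoc, this, add_zero]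
  refine ⟨l, ?_⟩
  rw [← hνp, ← Finset.sum_erase (a := some l) _ (by simp [ν, hl0])]
  apply (convex_convexHull ℝ _).sum_mem
  · intro o _
    cases o with
    | none => exact mul_nonneg htpos hμpos
    | some j => exact hcoef j
  · rw [Finset.sum_erase (a := some l) _ (by simp [ν, hl0])]
    exact hν1
  · intro o ho
    apply subset_convexHull
    cases o with
    | none => exact Set.mem_insert _ _
    | some j =>
      refine Set.mem_insert_of_mem _ ⟨j, ?_, rfl⟩
      intro hj
      apply (Finset.mem_erase.1 ho).1
      rw [hj]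

theorem t_HOM : S_HOM := by
  classical
  rintro d n X p Z hno ⟨f0, hf0, hpf0⟩ f hf
  have key : ∀ s : Finset (Fin (d + 1)), p ∈ hullX X univ (mix f0 f s) := by
    intro s
    induction s using Finset.induction_on with
    | empty =>
      have : mix f0 f ∅ = f0 := by
        funext i; simp [mix]
      rw [this]; exact hpf0
    | insert a s ha ih =>
      have hmZ : ∀ s : Finset (Fin (d + 1)), ∀ j, mix f0 f s j ∈ Z j := by
        intro s j
        unfold mix
        split_ifs
        · exact hf j
        · exact hf0 j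
      unfold hullX at ih
      rw [Finset.coe_univ] at ih
      obtain ⟨l, hl⟩ := hom_pivot (fun i => X i (mix f0 f s i)) (X a (f a)) ih
      by_cases hla : l = a
      · subst hla
        unfold hullX
        refine convexHull_mono ?_ hl
        intro x hx
        rcases hx with rfl | ⟨j, hj, rfl⟩
        · exact ⟨l, by simp, by simp [mix]⟩
        · refine ⟨j, by simp, ?_⟩
          have hj' : j ≠ l := hj
          simp [mix, hj']
      · exfalso
        apply hno l
        refine convexHull_mono ?_ hl
        intro x hx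
        rcases hx with rfl | ⟨j, hj, rfl⟩
        · exact ⟨a, fun h => hla h.symm, f a, hf a, rfl⟩
        · exact ⟨j, hj, mix f0 f s j, hmZ s j, rfl⟩
  have hu : mix f0 f univ = f := by
    funext i; simp [mix]
  have := key univ
  rwa [hu] at this

end Pool.Agent.Run7.h677.PS
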