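import Pool.Agent.Run7.h677.PS.Stm

set_option autoImplicit false

namespace Pool.Agent.Run7.h677.PS
open Finset

theorem sel_gp_mono {d : ℕ} {ι : Type} {X : ι → E d} {F F' : Set (Finset (E d))}
    (h : GP X F) (hs : F' ⊆ F) : GP X F' := fun σ hσ y hy => h σ (hs hσ) y hy

theorem sel_faces_mono {d : ℕ} {T : Finset (Finset (E d))} {σ τ : Finset (E d)}
    (h : σ ∈ Faces T) (hs : τ ⊆ σ) : τ ∈ Faces T := by
  obtain ⟨s, hs1, hs2⟩ := h
  exact ⟨s, hs1, hs.trans hs2⟩

theorem sel_faces_finite {d : ℕ} (T : Finset (Finset (E d))) : (Faces T).Finite := by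
  classical
  refine (T.biUnion (fun s => s.powerset)).finite_toSet.subset ?_
  rintro σ ⟨s, hs, hσ⟩
  simp only [Finset.coe_biUnion, Set.mem_iUnion]
  exact ⟨s, hs, by simpa using hσ⟩

theorem sel_ind_ne {d n : ℕ} (X : Fin (d + 1) → Fin n → E d) (σ : Finset (E d))
    (A : Finset (Fin (d + 1))) (f : Tup d n) :
    Ind X σ A f ≠ 0 ↔ (convexHull ℝ (σ : Set (E d)) ∩ hullX X A f).Nonempty := by
  unfold Ind
  split_ifs with h
  · simp [h]
  · simp [h]

theorem sel_point {d n : ℕ} (X : Fin (d + 1) → Fin n → E d) (p : E d)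
    (A : Finset (Fin (d + 1))) (f : Tup d n) :
    (convexHull ℝ ((({p} : Finset (E d))) : Set (E d)) ∩ hullX X A f).Nonempty ↔
      p ∈ hullX X A f := by
  rw [Finset.coe_singleton, convexHull_singleton]
  constructor
  · rintro ⟨x, hx, hx'⟩
    rw [Set.mem_singleton_iff] at hx
    rwa [← hx]
  · intro h
    exact ⟨p, rfl, h⟩

theorem sel_hull0 {d n : ℕ} (X : Fin (d + 1) → Fin n → E d) (f : Tup d n) :
    hullX X {0} f = {X 0 (f 0)} := by
  unfold hullX
  rw [Finset.coe_singleton, Set.image_singleton, convexHull_singleton]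

theorem sel_ball {d n : ℕ} (X : Fin (d + 1) → Fin n → E d) (R : ℝ)
    (h : ∀ i j, ‖X i j‖ ≤ R) (A : Finset (Fin (d + 1))) (f : Tup d n) :
    hullX X A f ⊆ Metric.closedBall 0 R := by
  unfold hullX
  apply convexHull_min _ (convex_closedBall _ _)
  rintro _ ⟨i, -, rfl⟩
  rw [mem_closedBall_zero_iff]
  exact h i (f i)

/-- In general position a point of the family is on no facet. -/
theorem sel_facet {d n : ℕ} (X : Fin (d + 1) → Fin n → E d) (F : Set (Finset (E d)))
    (hG : GP (unc X) F) (τ : Finset (E d)) (hτ : τ ∈ F) (hc : τ.card ≤ d) (i : Fin (d + 1))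
    (j : Fin n) : X i j ∉ convexHull ℝ (τ : Set (E d)) := by
  classical
  intro hx
  have hA := hG τ hτ {(i, j)} (by rw [Finset.card_singleton]; omega)
  have hn := hA.notMem_affineSpan_diff (Sum.inr ⟨(i, j), Finset.mem_singleton_self _⟩) Set.univ
  apply hn
  have h1 := convexHull_subset_affineSpan (𝕜 := ℝ) (τ : Set (E d)) hx
  refine affineSpan_mono ℝ ?_ h1
  intro v hv
  exact ⟨Sum.inl ⟨v, hv⟩, ⟨Set.mem_univ _, by simp⟩, rfl⟩

theorem t_SEL : S_PARI → S_GENPOS → S_H0 → S_CHAIN → S_FREUD → S_SELA → S_SEL := by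
  classical
  intro hPARI hGENPOS hH0 hCHAIN hFREUD hSELA d hd
  refine ⟨2 * (d + 1).factorial * d ^ 2 + 1, ?_⟩
  intro n hn X ε hε
  -- first perturbation
  obtain ⟨X', hX'd, hX'g⟩ := hGENPOS d (Fin (d + 1) × Fin n) (unc X) {∅} (Set.finite_singleton _)
    (by
      intro σ hσ
      rw [Set.mem_singleton_iff] at hσ
      subst hσ
      have : Subsingleton ((∅ : Finset (E d)) : Finset (E d)) :=
        ⟨fun a => absurd a.2 (Finset.notMem_empty _)⟩
      exact affineIndependent_of_subsingleton ℝ _) (ε / 2) (by linarith)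
  set X1 : Fin (d + 1) → Fin n → E d := fun i j => X' (i, j) with hX1
  have hX1u : unc X1 = X' := rfl
  obtain ⟨δ, hδ, hsela⟩ := hSELA d n X1 (by rw [hX1u]; exact hX'g)
  set R : ℝ := (∑ a, ‖X' a‖) + δ + 1 with hR
  have hsum0 : 0 ≤ ∑ a, ‖X' a‖ := Finset.sum_nonneg (fun a _ => norm_nonneg _)
  have hRpos : 0 < R := by linarith
  obtain ⟨T, hT1, hT2, hT3⟩ := hFREUD d δ R hd hδ hRpos
  -- second perturbation
  obtain ⟨X2', hX2d, hX2g⟩ := hGENPOS d (Fin (d + 1) × Fin n) X' (Faces T) (sel_faces_finite T)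
    (by
      rintro σ ⟨s, hs, hσs⟩
      exact (hT1 s hs).2.1.comp_embedding
        ⟨fun v : σ => (⟨v.1, hσs v.2⟩ : s), fun a b hab => by
          apply Subtype.ext
          exact congrArg (fun z : s => (z : E d)) hab⟩) (min (ε / 2) δ)
      (lt_min (by linarith) hδ)
  set X2 : Fin (d + 1) → Fin n → E d := fun i j => X2' (i, j) with hX2
  have hX2u : unc X2 = X2' := rfl
  have hG2 : GP (unc X2) (Faces T) := by rw [hX2u]; exact hX2g
  have hdε : ∀ i j, dist (X2 i j) (X i j) < ε := by
    intro i j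
    have h1 : dist (X2' (i, j)) (X' (i, j)) < ε / 2 := (hX2d (i, j)).trans_le (min_le_left _ _)
    have h2 : dist (X' (i, j)) (X i j) < ε / 2 := hX'd (i, j)
    calc dist (X2 i j) (X i j) ≤ dist (X2' (i, j)) (X' (i, j)) + dist (X' (i, j)) (X i j) :=
          dist_triangle _ _ _
      _ < ε := by linarith
  have hdδ : ∀ i j, dist (X2 i j) (X1 i j) ≤ δ := by
    intro i j
    exact ((hX2d (i, j)).trans_le (min_le_right _ _)).le
  have hnorm : ∀ i j, ‖X2 i j‖ ≤ R := by
    intro i j
    have h1 := hdδ i j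
    have h2 : ‖X' (i, j)‖ ≤ ∑ a, ‖X' a‖ :=
      Finset.single_le_sum (f := fun a => ‖X' a‖) (fun a _ => norm_nonneg _) (Finset.mem_univ _)
    have h3 : ‖X2 i j‖ ≤ ‖X2 i j - X1 i j‖ + ‖X1 i j‖ := by
      have := norm_add_le (X2 i j - X1 i j) (X1 i j)
      rwa [sub_add_cancel] at this
    rw [dist_eq_norm] at h1
    have h4 : ‖X1 i j‖ ≤ ∑ a, ‖X' a‖ := h2
    linarith
  by_cases hp : ∃ p : E d, {p} ∈ Faces T ∧
      n ^ (d + 1) ≤ 2 * (d + 1).factorial * {f : Tup d n | p ∈ hullX X2 univ f}.ncard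
  · obtain ⟨p, hpF, hpc⟩ := hp
    refine ⟨X2, p, hdε, sel_gp_mono hG2 ?_, hpc⟩
    intro τ hτ
    rcases hτ with rfl | hτ
    · exact sel_faces_mono hpF (Finset.empty_subset _)
    · rw [Set.mem_singleton_iff] at hτ
      rw [hτ]; exact hpF
  · exfalso
    push Not at hp
    have hn1 : 1 ≤ n := by omega
    have hnR : (0 : ℝ) < n := by exact_mod_cast hn1
    have hfac : (0 : ℝ) < ((d + 1).factorial : ℝ) := by exact_mod_cast Nat.factorial_pos _
    have hch : ChainHyp d n T (fun σ A f => Ind X2 σ A f)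
        (fun τ => Disjoint (convexHull ℝ (τ : Set (E d))) (Metric.closedBall 0 R))
        (1 / (2 * ((d + 1).factorial : ℝ))) ((d : ℝ) / n) := by
      refine ⟨hd, hn1, by positivity, by positivity, fun s hs => (hT1 s hs).1, ?_, ?_, ?_, ?_,
        ?_, ?_, ?_, ?_, ?_⟩
      · -- dep
        intro σ A f f' hff
        have : hullX X2 A f = hullX X2 A f' := by
          unfold hullX
          congr 1
          apply Set.image_congr
          intro i hi
          rw [hff i hi]
        unfold Ind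
        rw [this]
      · -- par
        intro σ hσ A f hc
        exact hPARI d n X2 σ A f hc (sel_gp_mono hG2 (fun τ hτ => sel_faces_mono hσ hτ))
      · -- base
        intro σ hσ hc f f'
        obtain ⟨p, rfl⟩ := Finset.card_eq_one.1 hc
        apply hH0 d n X2 p f f' hd
        apply sel_gp_mono hG2
        intro τ hτ
        rcases hτ with rfl | hτ
        · exact sel_faces_mono hσ (Finset.empty_subset _)
        · rw [Set.mem_singleton_iff] at hτ
          rw [hτ]; exact hσ
      · -- cnt0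
        intro σ hσ hc
        obtain ⟨p, rfl⟩ := Finset.card_eq_one.1 hc
        have h1 := hp p hσ
        have hset : {f : Tup d n | Ind X2 {p} univ f ≠ 0} =
            {f : Tup d n | p ∈ hullX X2 univ f} := by
          ext f
          rw [Set.mem_setOf_eq, Set.mem_setOf_eq, sel_ind_ne, sel_point]
        rw [hset]
        have h2 : (2 * ((d + 1).factorial : ℝ)) *
            (({f : Tup d n | p ∈ hullX X2 univ f}.ncard : ℕ) : ℝ) < (n : ℝ) ^ (d + 1) := by
          exact_mod_cast h1
        rw [div_mul_eq_mul_div, one_mul, le_div_iff₀ (by positivity)]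
        linarith
      · -- cnt
        intro σ hσ h2 A hA
        obtain ⟨s, hs, hσs⟩ := hσ
        have h3 := hsela X2 hdδ σ (fun u hu v hv => (hT1 s hs).2.2 u (hσs hu) v (hσs hv)) A
          (by omega)
        have hset : {f : Tup d n | Ind X2 σ A f ≠ 0} =
            {f : Tup d n | (convexHull ℝ (σ : Set (E d)) ∩ hullX X2 A f).Nonempty} := by
          ext f
          rw [Set.mem_setOf_eq, Set.mem_setOf_eq, sel_ind_ne]
        rw [hset]
        have h4 : (({f : Tup d n |
            (convexHull ℝ (σ : Set (E d)) ∩ hullX X2 A f).Nonempty}.ncard : ℕ) : ℝ) ≤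
            (d : ℝ) * (n : ℝ) ^ d := by
          exact_mod_cast h3
        calc _ ≤ (d : ℝ) * (n : ℝ) ^ d := h4
          _ = (d : ℝ) / n * (n : ℝ) ^ (d + 1) := by
            rw [pow_succ]
            field_simp
      · -- far
        intro σ hσ A f
        by_contra hcon
        rw [← ne_eq, sel_ind_ne] at hcon
        obtain ⟨x, hx1, hx2⟩ := hcon
        exact (Set.disjoint_left.1 hσ) hx1 (sel_ball X2 R hnorm A f hx2)
      · -- farsub
        intro σ τ hσ hτ
        exact Disjoint.mono_left (convexHull_mono (by exact_mod_cast hτ)) hσ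
      · -- one
        intro f
        obtain ⟨s, ⟨hsT, hsx⟩, huniq⟩ := hT2 (X2 0 (f 0)) (hnorm 0 (f 0)) (by
          intro s hs v hv
          apply sel_facet X2 (Faces T) hG2
          · exact ⟨s, hs, Finset.erase_subset _ _⟩
          · rw [Finset.card_erase_of_mem hv, (hT1 s hs).1]
            omega)
        rw [Finset.sum_eq_single s]
        · have : (convexHull ℝ (s : Set (E d)) ∩ hullX X2 {0} f).Nonempty := by
            rw [sel_hull0]
            exact ⟨_, hsx, rfl⟩
          unfold Ind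
          rw [if_pos this]
        · intro s' hs' hne
          by_contra hcon
          rw [← ne_eq, sel_ind_ne] at hcon
          obtain ⟨x, hx1, hx2⟩ := hcon
          rw [sel_hull0, Set.mem_singleton_iff] at hx2
          subst hx2
          exact hne (huniq s' ⟨hs', hx1⟩)
        · intro h
          exact absurd hsT h
      · -- bdry
        intro g hg
        exact hT3 g hg
    have hfin := hCHAIN (E d) d n T _ _ _ _ hch
    have hnn : (2 * (d + 1).factorial * d ^ 2 + 1 : ℝ) ≤ n := by exact_mod_cast hn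
    have e1 : ((d + 1).factorial : ℝ) *
        (1 / (2 * ((d + 1).factorial : ℝ)) + (d : ℝ) * ((d : ℝ) / n)) =
        1 / 2 + ((d + 1).factorial : ℝ) * (d : ℝ) ^ 2 / n := by
      field_simp
    rw [e1] at hfin
    have e2 : ((d + 1).factorial : ℝ) * (d : ℝ) ^ 2 / n < 1 / 2 := by
      rw [div_lt_iff₀ hnR]
      linarith
    linarith

end Pool.Agent.Run7.h677.PS
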